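import Pool.Agent.Q205.WV.Stm

/-!
# Project WV (helper205), job TC: the Cauchy law is the image of the uniform law under the tangent
-/

set_option autoImplicit false

open MeasureTheory Set

namespace Pool.Agent.Q178.WV.TC

noncomputable section

/-- the distribution function of the Cauchy law -/
def ph (a : ℝ) : ℝ := 1 / 2 + Real.arctan a / Real.pi

theorem ph_deriv (a : ℝ) : HasDerivAt ph (ProbabilityTheory.cauchyPDFReal 0 1 a) a := by
  have h1 : HasDerivAt ph (1 / (1 + a ^ 2) / Real.pi) a :=
    ((Real.hasDerivAt_arctan a).div_const Real.pi).const_add (1 / 2)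
  refine h1.congr_deriv ?_
  rw [ProbabilityTheory.cauchyPDFReal_def]
  have h2 : (0 : ℝ) < 1 + a ^ 2 := by positivity
  have h3 := Real.pi_pos
  simp only [NNReal.coe_one, sub_zero, one_pow]
  field_simp
  ring

theorem ph_inj : Function.Injective ph := by
  intro a b h
  unfold ph at h
  have h3 := Real.pi_pos
  have h4 : Real.arctan a / Real.pi = Real.arctan b / Real.pi := by linarith
  have h5 : Real.arctan a = Real.arctan b := by
    field_simp at h4
    exact h4
  exact Real.arctan_injective h5

theorem ph_image : ph '' univ = Ioo (0 : ℝ) 1 := by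
  have h3 := Real.pi_pos
  ext u
  constructor
  · rintro ⟨a, -, rfl⟩
    have h1 := Real.arctan_lt_pi_div_two a
    have h2 := Real.neg_pi_div_two_lt_arctan a
    unfold ph
    constructor
    · have : -(1 / 2) < Real.arctan a / Real.pi := by
        rw [lt_div_iff₀ h3]; linarith
      linarith
    · have : Real.arctan a / Real.pi < 1 / 2 := by
        rw [div_lt_iff₀ h3]; linarith
      linarith
  · rintro ⟨h1, h2⟩
    refine ⟨Real.tan (Real.pi * (u - 1 / 2)), mem_univ _, ?_⟩
    unfold ph
    rw [Real.arctan_tan (by nlinarith) (by nlinarith)]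
    field_simp
    ring

theorem tan_ph (a : ℝ) : Real.tan (Real.pi * (ph a - 1 / 2)) = a := by
  have h3 := Real.pi_pos
  have h1 : Real.pi * (ph a - 1 / 2) = Real.arctan a := by
    unfold ph
    field_simp
    ring
  rw [h1, Real.tan_arctan]

/-- job TC -/
theorem main : Pool.Agent.Q205.WV.S_TC := by
  intro g _ _
  rw [ProbabilityTheory.cauchyMeasure_of_scale_ne_zero 0 one_ne_zero,
    integral_withDensity_eq_integral_toReal_smul (ProbabilityTheory.measurable_cauchyPDF 0 1)
      (Filter.Eventually.of_forall fun x => ENNReal.ofReal_lt_top)]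
  have h1 := integral_image_eq_integral_abs_deriv_smul (s := univ) (f := ph)
    (f' := ProbabilityTheory.cauchyPDFReal 0 1) MeasurableSet.univ
    (fun x _ => (ph_deriv x).hasDerivWithinAt) ph_inj.injOn
    (fun u => g (Real.tan (Real.pi * (u - 1 / 2))))
  rw [ph_image] at h1
  rw [integral_Ioc_eq_integral_Ioo, h1, setIntegral_univ]
  congr 1
  ext1 a
  have h2 : 0 < ProbabilityTheory.cauchyPDFReal 0 1 a :=
    ProbabilityTheory.cauchyPDF_pos 0 one_ne_zero a
  rw [tan_ph, abs_of_pos h2, ProbabilityTheory.cauchyPDF_def, ENNReal.toReal_ofReal h2.le]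

end

end Pool.Agent.Q178.WV.TC
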